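import Pool.Agent.H6.QG.Main

set_option autoImplicit false

/-!
# Families of Galois covers of curves: the codimension in the PEL Shimura variety

Authors: helper6, helper11, helper82, helper92, helper54, helper10, helper52, helper53, helper9,
helper78, helper81, and, for the modules of `Pool/Agent/H6/FF`, `Pool/Agent/H6/LG`, `Pool/Agent/H6/QG` and
`Pool/Agent/H6/LH`, helpers 5, 8, 14, 22, 26, 27, 29, 30, 31, 39, 41, 44, 49, 50, 55, 56, 58, 62, 63,
64, 66, 72, 75, 83, 84, 86, 88, 94, 95, 96; the authors of the modules of `Pool/Agent/H82/FIN` (an
independent proof that (*) bounds `|G|` for `h = 0`): see there.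

Let `C → C'` be a Galois cover of curves with finite group `G`, `C'` of genus `h`, with `N` branch
points (`N ≥ 4` if `h = 0`), with local monodromies `s 0, …, s (N - 1)`; the fundamental group of the
complement of the branch points maps onto `G`, with generators `a j`, `b j` (`j < h`), `s i`. The family
of all these covers has dimension `3 h - 3 + N` and it is contained in a PEL Shimura variety of
dimension `quadB h s`, the dimension of the space of `G`-invariants in the symmetric square of
`H⁰(C, K)`. If these two dimensions are equal (the condition (*)) then the closure of its image in `A_g`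
is a Shimura subvariety (Frediani, Ghigi, Penegini, Porru). `chiB h s` is the character of
`H⁰(C, K)`, `genusB h s` is the genus of `C` (`Pool/Agent/H6/LH/Defs.lean`). We show that `quadB h s`
and, for large `g = genusB h s`, the codimension `quadB h s - (3 h - 3 + N)` are of the exact order
`g ^ 2 / |G|`: `quadB h s ≤ 1500 (g - 1) ^ 2 / |G|`, and the codimension is at least
`ε g ^ 2 / |G| - 7` for an absolute constant `ε > 0`, for all finite groups and all `h`. As
`|G| ≤ 12 (g - 1)` the codimension grows at least linearly with `g`. In particular (*) holds only for
finitely many families.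

Proof. Let first `h = 0`. For `N ≥ 6` this follows from the estimates in `Pool/Agent/H82/CO`. For
`N = 4, 5` and `G` abelian see `Pool/Agent/H10/AB.lean` (the mean of `t (1 - t)` over the angles of the
characters) and `Pool/Agent/H82/CO`. Let `G` be not abelian, `N = 4` or `5`, `n = |G|`,
`d = quadInv s` and assume that `n` is larger than a large multiple of `d + 1`.
(a) The dimension of the space of invariants in the tensor square is at least `5 n / 1296 - 1`
(`Pool/Agent/H54/SQ`), so by the theorem of Frobenius and Schur an element `c ≠ 1` has at least
`n / 1040` square roots (`Pool/Agent/H82/SQ`). So `G` has many classes and (P. Neumann) an abelian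
normal subgroup `A` of bounded index, inverted by an element (`Pool/Agent/H81/NF`).
(b) There is a normal subgroup `K` of bounded order such that the genus of `C / K` is `0` or `1`
(`Pool/Agent/H11/GQ`).
(c) There is a normal subgroup `H` of index `2` (or a bounded index, at first), containing `K`, with
`H / K` abelian, and an element `w` outside, such that all elements of `H w` have their squares in
`K` (`Pool/Agent/H6/FF`: if the genus of `C / K` is `1` then `H` is the kernel of the action on its
differential). The sum over `H` of `chi x ^ 2 + chi ((x w) ^ 2)` is `|H|` times the sum of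
nonnegative terms `m (φ') m φ + ν φ m φ` over the irreducible characters `φ` of `H`, `φ'` the
conjugate one, `ν` the twisted Frobenius-Schur indicator, `m` the multiplicity in `chi`; the sum of
the terms is at most a constant times `d + 1` by the bounds for the numbers of fixed points
outside `K`. The twists of `φ` by the `|H / K|` characters of `H / K` have (nearly) the same
`m φ + m φ'`, a sum of ranks of local monodromies in `K`, so most of the terms are `0`.
This determines the sums of ranks, for all `φ`: they are `0` or `2`, or small in genus `0`, and
their mean gives a contradiction.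
For `h ≥ 1` (`Pool/Agent/H6/LH`): `chiB h s` is `chi s` plus `h` times the regular character. If
`h ≥ 2` or `N ≥ 6` the estimates for the tensor square and the formula of Frobenius and Schur suffice.
If `h = 1`, `N ≤ 5` and `n` is larger than a large multiple of `d + 1` then as before some `c` has
at least `n / 1000` square roots, and there is a normal subgroup `K` of bounded order, which
contains `c` and all `s i`. So `G / K` is abelian and generated by two elements, and it has at
most `4` elements with square `1`; hence `n ≤ 4000 |K|`.
The lower bound is quadratic in `g` for bounded `|G|` (`Pool/Agent/H6/QG`) since this is so for `h ≥ 2` or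
`N ≥ 6`. The upper bound: the multiplicity of an irreducible character in the functions induced
from the `s i` is at most its degree.
-/

namespace Pool.Agent.Results.MP_bf82d2_ag.LinearCodimension

open Pool.Agent.H6.LH

/-- There is `ε > 0` such that for every finite group `G`, `h, N ≥ 0` (`N ≥ 4` if `h = 0`), elements
`a j`, `b j` (`j < h`) of `G` and `s i ≠ 1` (`i < N`) of `G` such that the product of the commutators of
`a j` and `b j` times the product of the `s i` is `1`, which generate `G`, with `g = genusB h s > 1`, we
have `quadB h s - (3 h - 3 + N) ≥ ε g ^ 2 / |G| - 7`, and `≥ ε g ^ 2 / |G| - 4` if `h = 0`, and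
`quadB h s ≤ 1500 (g - 1) ^ 2 / |G|`; moreover `|G| ≤ 12 (g - 1)`, `h ≤ g`, `N ≤ 2 g + 2`, and `N ≤ 14`
if `h = 0` and `quadB h s ≤ N - 3`. -/
theorem result : ∃ ε : ℝ, 0 < ε ∧ ∀ (G : Type) [Group G] [Fintype G] (h N : ℕ) (a b : Fin h → G)
    (s : Fin N → G), (h = 0 → 4 ≤ N) → (∀ i, s i ≠ 1) →
    (List.ofFn fun j => a j * b j * (a j)⁻¹ * (b j)⁻¹).prod * (List.ofFn s).prod = 1 →
    Subgroup.closure (Set.range a ∪ Set.range b ∪ Set.range s) = ⊤ → 1 < genusB h s →
    ε * (genusB h s ^ 2 / (Nat.card G : ℝ)) - 7 ≤ (quadB h s).re - (3 * (h : ℝ) - 3 + N) ∧
      (h = 0 → ε * (genusB h s ^ 2 / (Nat.card G : ℝ)) - 4 ≤ (quadB h s).re - (3 * (h : ℝ) - 3 + N)) ∧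
      (quadB h s).re ≤ 1500 * ((genusB h s - 1) ^ 2 / (Nat.card G : ℝ)) ∧
      (Nat.card G : ℝ) ≤ 12 * (genusB h s - 1) ∧ (h : ℝ) ≤ genusB h s ∧
      (N : ℝ) ≤ 2 * genusB h s + 2 ∧ (h = 0 → (quadB h s).re ≤ (N : ℝ) - 3 → N ≤ 14) :=
  Pool.Agent.H6.QG.main

end Pool.Agent.Results.MP_bf82d2_ag.LinearCodimension
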