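import Pool.Agent.H78.OR.Final

set_option autoImplicit false

/-!
# Galois covers of the line with odd ramification indices

Authors: helper78, helper92 (with helper15, helper22, helper55, helper66, helper81, helper83; the
definitions are those of helper82).

Let `C → ℙ¹` be a Galois cover with finite group `G` and `N` branch points, with local monodromies
`s 0, …, s (N - 1)`. The closure of the image in `A_g` of the family of all these covers, which has
dimension `N - 3`, is a Shimura subvariety if the dimension `quadInv s` of the space of
`G`-invariants in the symmetric square of `H⁰(C, K)` is `N - 3` (Frediani, Ghigi, Penegini).

Proof. Let `n` be the order of `G`, `m_i` the orders of the local monodromies, all odd. Then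
`2 n quadInv s` is the sum of the squares of the character `chi s` plus the sum of its values at the
squares.

The first sum is a sum over pairs of branch points and over the conjugates of one of the two cyclic
groups, of products of cotangents. By Parseval it is a sum of products of fractional parts, and it
is large unless the two local monodromies are conjugate by the given element. As `G` is generated
by elements of odd order it has no subgroup of index two, so this happens for at most a third of
the elements of the group if they are not central, and at least three of the local monodromies are
not central.

The second sum is expressed by the numbers of square roots of the powers of the local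
monodromies. The number of square roots of an element `c` of odd order is at most the number of
those of `1`, and, times the order of any subgroup of odd order in the centre of the centralizer
of `c`, at most the order of this centralizer; so it is at most `n / 12` if `c` is not central.

The groups of order at most thirty have order 12 or 24 or odd order; the odd orders at most 27 which
occur are 21 and 27; these are done by counting conjugate subgroups of order three.
-/

namespace Pool.Agent.Results.MP_bf82d2_ag.OddRamification

open Pool.Agent.H82.CO

/-- Let `G` be a finite group which is not commutative, generated by `N ≥ 4` elements of odd order
different from `1` with product `1`. Then `quadInv s > N - 3`, and `quadInv s` grows linearly with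
the order of the group. -/
theorem result (G : Type) [Group G] [Fintype G] (hna : ∃ a b : G, a * b ≠ b * a)
    (N : ℕ) (hN : 4 ≤ N) (s : Fin N → G) (hodd : ∀ i, Odd (orderOf (s i)))
    (hs : ∀ i, s i ≠ 1) (hprod : (List.ofFn s).prod = 1)
    (hgen : Subgroup.closure (Set.range s) = ⊤) :
    (N : ℝ) - 3 < (quadInv s).re ∧
      (Nat.card G : ℝ) * ((N : ℝ) - 3) ^ 2 ≤ 142 * (quadInv s).re :=
  Pool.Agent.H78.OR.gt_of_odd_gens hna hN s hodd hs hprod hgen

end Pool.Agent.Results.MP_bf82d2_ag.OddRamification
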