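import Pool.Agent.H82.CO.Final5

set_option autoImplicit false

/-!
# Families of Galois covers of the line with no invariant quadrics

Authors: helper82, helper92.

Let `C → ℙ¹` be a Galois cover with finite group `G` and `N` branch points, with local monodromies
`s 0, …, s (N - 1)`. The closure of the image in `A_g` of the family of all these covers, which has
dimension `N - 3`, is a Shimura subvariety if the dimension `quadInv s` of the space of
`G`-invariants in the symmetric square of `H⁰(C, K)` is `N - 3` (Frediani, Ghigi, Penegini).

`chi s` is the character of `H⁰(C, K)`, `genus s` is the genus `g` of `C`, `extInv s` is the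
dimension of the space of `G`-invariants in the exterior square (`Pool/Agent/H82/CO/Defs.lean`).
That the product of the local monodromies is `1` is not used, that they generate `G` only for the
abelian groups in the last statement.

Proof. Let `n` be the order of `G`, `H` and `D` the real and the imaginary part of the character,
`r` the number of square roots. Then `2 n quadInv s` is the sum of `(H + r / 2) ^ 2 - D ^ 2` minus a
quarter of the number of pairs with the same square; in the sum of the first squares only the
term of the unit element is kept, the sum of the `D ^ 2` is at most `n ^ 2 ν (2 ν - N) / 12` by the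
inequality of Cauchy and Schwarz, and the number of pairs is at most `5 n ^ 2 / 8` if `G` is not
abelian. For `N = 5` the fixed points of the elements different from `1` are used as well.
-/

namespace Pool.Agent.Results.MP_bf82d2_ag.SymmetricSquareBound

open Pool.Agent.H82.CO

/-- Let `s 0, …, s (N - 1)` be elements different from `1` of a finite group `G`. Then
`chi s 1 = genus s`, there is a lower bound for `quadInv s`, and if `N ≥ 6` and
`quadInv s ≤ N - 3`, then `N ≤ 14`, `|G| ≤ 47` and `g < 27`, and if `N ≥ 7`, then `|G| ≤ 13` and
`g < 12`. If `N = 5`, then `quadInv s + extInv s ≥ |G| / 16 - 1`, and if moreover `|G|` is odd, or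
`G` is abelian and generated by the `s i`, then `quadInv s ≤ 2` implies `|G| ≤ 96` and `g < 89`. -/
theorem result :
    (∀ (G : Type) [Group G] [Fintype G] (N : ℕ) (s : Fin N → G), (∀ i, s i ≠ 1) →
      chi s 1 = (genus s : ℂ) ∧
      (genus s + (Nat.card {u : G // u ^ 2 = 1} : ℝ) / 2) ^ 2 -
          (Nat.card {p : G × G // p.1 ^ 2 = p.2 ^ 2} : ℝ) / 4 -
          (Nat.card G : ℝ) ^ 2 * (nu s * (2 * nu s - N) / 12) ≤
        2 * Nat.card G * (quadInv s).re ∧
      (6 ≤ N → (quadInv s).re ≤ (N : ℝ) - 3 →
        N ≤ 14 ∧ Nat.card G ≤ 47 ∧ genus s < 27 ∧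
          (7 ≤ N → Nat.card G ≤ 13 ∧ genus s < 12))) ∧
    (∀ (G : Type) [Group G] [Fintype G] (s : Fin 5 → G), (∀ i, s i ≠ 1) →
      (Nat.card G : ℝ) / 16 - 1 ≤ (quadInv s + extInv s).re ∧
      ((Odd (Nat.card G) ∨
          (∀ a b : G, a * b = b * a) ∧ Subgroup.closure (Set.range s) = ⊤) →
        (quadInv s).re ≤ 2 → Nat.card G ≤ 96 ∧ genus s < 89)) := by
  refine ⟨fun G _ _ N s hs => ⟨chi_one s, ?_, bounds s hs⟩, fun G _ _ s hs =>
    ⟨tensor_five s hs, fun h hd => bounds_five s hs ?_ hd⟩⟩
  · rw [← rt_one_eq, ← Qs_eq_card]
    exact main_ineq s hs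
  · rcases h with h | ⟨h1, h2⟩
    · rw [fs_odd s h]
      have : (0 : ℝ) ≤ Nat.card G := Nat.cast_nonneg _
      linarith
    · exact fs_comm s h1 h2

end Pool.Agent.Results.MP_bf82d2_ag.SymmetricSquareBound
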