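import Pool.Agent.H78.UN.MainB
import Pool.Agent.H78.UN.MainC
import Pool.Agent.H83.UNE.Iso

set_option autoImplicit false

/-!
# One-parameter families of Galois covers: only finitely many have complex multiplication

Authors: helper78, helper52, helper82, helper19, helper83 (and the vanishing cycle modules of helper52 and others).

Let `G` be a finite group which is not commutative, and consider a one-parameter family of curves `C` of genus `> 1` with
an action of `G` with fixed ramification type: (A) the Galois covers of the line with four branch points, with local
monodromies `s = (s 0, …, s 3)`, a generating system with product `1`, or (B) the Galois covers of elliptic curves with one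
branch point, given by generators `x`, `y`, with local monodromy `[x, y]`. (The number of parameters of the covers of
curves of genus `h` with `N` branch points is `3 h - 3 + N`, so there are no others.) We show: if infinitely many curves
of the family have a Jacobian with complex multiplication then `|G| ≤ 172` in (A) and `G = Q_8` in (B). Lean proves that the
conditions `Shim`, `ShimC`, `ShimE` imply this; that a family with infinitely many curves with complex multiplication
satisfies one of them follows from the literature, as follows. In (A) we assume that `|G| > 60` and that `G` is not dihedral,
so that `G` does not act on the line: if `G` is dihedral, two of the `s i` are reflections and two are rotations (if all are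
reflections the genus is one), `C` is a cyclic cover of the line with four branch points, and the classification of
Moonen applies, as it does for cyclic `G`; for commutative `G` see Mohajer and Zuo.

NOTATION (A). A braid translate `t` of `s` describes the same covers with another system of loops. Let `a = t 0 * t 1`,
`b = t 1 * t 2`, `n = |G|`, `r = dim HR t`. The collision of the first two points of `t` is a cusp of the upper half plane
`H`, the universal cover of `M_{0,4} = H/Γ(2)`; the cusps are the vertices of the Farey triangulation, the translates `t`
correspond to its flags: vertex `a`, edge from `a` to `b`, and the triangle with third vertex `a (w t)` on a fixed side of the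
edge. (The fibres of this correspondence all have the same size, since `G` modulo the centre acts freely by
conjugation and the Klein group is normal.)

(1) Let infinitely many curves of the family have complex multiplication. By the theorem of Andre and Oort for `A_g`
(Tsimerman; Pila, Shankar, Tsimerman) the closure `Z` of the family in `A_g` is a Shimura curve. At the collision `a` the
lifts of the loop `a` are `n / |a|` vanishing cycles, permuted by `G` as `G/⟨a⟩`; the space spanned by them in `H_1(C)` has
the dual `HR t`, the functions on `G/⟨a⟩` with sum zero on the components of the rest of the curve, that is on the cosets
of `⟨t 0, t 1⟩` and of `⟨t 2, t 3⟩`. It is zero if and only if the dual graph is a tree, and then, as a finite group acting on a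
tree without inversions fixes a vertex, one of the two groups is `G` and the other one `⟨a⟩`: this is `Tree t`. Suppose first
that there are vertices which are not trees (this is so if no `s i` is in the centre, since if two adjacent vertices are
trees one of the `t i` commutes with all the others). Then `Z` is not compact, it is commensurable with the modular
curve, and, after a finite cover, `H^1(C) = L ⊗ U ⊕ W` with constant `U`, `W` and the standard representation `L` of `SL_2`
(Satake, Deligne, Mumford); `dim U = r` at all vertices which are not trees.

(2) The differential of the period map `P` of `L` does not vanish: it is dual to `S^2 H^0(K) → H^0(2K)^G`, a space of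
dimension one, and by Noether it is zero only if `C` is hyperelliptic with an involution which is not in `G`, and then `G` acts
faithfully on the line. At a tree, the family extends to a curve of compact type; the node parameter is `q`, `q^e = λ`,
`e = |a|`, the full twist `T_a` fixes the cover and acts by `q ↦ ζ_e q`, and the off-diagonal block of the period matrix is
`q ω(p) ω'(p')` to first order, where `ω`, `ω'` are differentials on both sides, which have positive genus (otherwise `G` acts
on the line); so `P` is an immersion in `q`, and `T_a` is elliptic of order exactly `e` in `PGL_2(ℚ)`: `e` is 3, 4 or 6 (it is
not 1 or 2 since `t 0`, `t 1` are not `1`).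

(3) So the orbifold `X`, the base with the trees filled in as cone points of order `e`, maps to the normalization of `Z` by a
local isomorphism of orbifolds, which is proper since the vertices which are not trees go to cusps, and `P`, from the
universal cover of `X` to the upper half plane, is an isomorphism.

(4) For a vertex `a` which is not a tree let `N_a` be the logarithm of the product of the Dehn twists in the lifts of `a`,
that is of `T_a^e`, and `ν_a = N_a / e`. By Picard and Lefschetz `N_a = Σ (·, α) α`, so `N_a N_b N_a = - A M Mᵗ P` if `A` is the map
`f ↦ Σ f(α) α`, `P` its dual and `M` the matrix of the numbers `(α, β)`, `α` a lift of `a`, `β` of `b`. The lift of `b` with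
label `y` meets the lifts of `a` with labels `y` and `y * t 1` (and so on, multiplied by the elements of `⟨b⟩`), with opposite
signs; so `M Mᵗ` is the operator `wall` on `HR t`. On `L` we have `ν_a ν_b ν_a = - λ² ν_a`, where `λ` is the lambda length of
Penner between the horocycles at `a` and `b` on which `exp ν_a`, `exp ν_b` have length one. So `wall = λ² |a| |b|` on `HR t`:
this is `edge`. At a tree `t` with `t 0`, `t 1` in `⟨a⟩` the same computation for `b` and `T_a b`, which meet in four points, with
labels `y`, `y * t 0`, `y * t 1`, `y * t 0 * t 1`, gives `star`, with `z t` the lambda length between `b` and `T_a b`. The vertices
around a tree are the images `b_k` of `b` under the half twists; if they are not trees `P` maps them to the vertices of an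
ideal polygon with `2 e` vertices, invariant under the rotation of order `e`; if the horocycle at `b_k` is given by a vector
`v_k` then `v_{k+2}` is `v_k` rotated by `π / e` and the lambda lengths are the determinants, which gives `diag`, by the law
of cosines. If two adjacent vertices `a`, `b` are trees, one of the `t i` is in the centre, the full twists `T_a`, `T_b`
fix the cover and generate the pure mapping class group, so `X` is a sphere with two cone points and one cusp `c`. The
arc from `c` to `c` which separates them has lambda length `z`, and the horocycle, of length one, is cut into the two
segments `2 cos (π / |a|) / z` and `2 cos (π / |b|) / z`: this is `adj`.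

(5) `horo` is the total length of the horocycles of `X` if there are no adjacent trees: it is the number of half twists at
the vertices which are not trees, times `1/2`, and the sum of the segments in the triangles without trees, which are
`λ'' / (λ λ')`, and the segments in the polygons around the trees, which are `z / (x y)`. `noether`: the degree of the Hodge
bundle of the family over the `D`-fold cover of `M_{0,4}` is at most `r D / 2` (Arakelov equality), and twelve times this
degree is `n D (1 - Σ 1 / m_i²)` plus the number of nodes, counted with multiplicities, which is positive.

(6) Proof for `Shim`. The norm of `wall` is at most `4 |a| |b|`, so all `λ ≤ 2`, and the horocycle segments of a triangle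
without trees have sum at least `3 / 2`. The norm of `(1 - t 0) (1 - t 1)` on the functions on `⟨a⟩` is `3`, `√8`, at most `√12` for
`e = 3, 4, 6`, and by `diag` the segments of a polygon around a tree, modulo the rotation, have sum at least `2`, with
equality only for `e = 3`. The sum over all `t` shows that we have equality everywhere. If there are no trees,
`wall = 4 |a| |b|` on `HR t`, so all `t i` act as `-1` on `HR t` and `dim HR t ≤ 1`. If there is a tree then `t 0 = t 1` has order
three and `dim HR (ro t) ≤ 2`. In both cases `noether` gives `|G| ≤ 43`. If there are adjacent trees then `adj` and the norm
bounds leave the cases `(4, 4)` and `(6, 6)`, with equality in the norm bound; then `G` acts on the vanishing cycles by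
characters, at most two of them occur, and `noether` gives `|G| ≤ 86`.

(7) Suppose that all `t` are trees. Then one of the strands, `c`, is in the centre, and `a = c t_j` generates `⟨c, t_j⟩` for the
three other strands, since `G` is not commutative. All full twists fix the cover, `X` is the sphere with three cone
points, of orders `|c t_j|`, and (2), (3) hold as before. `H^1(C, ℂ) = ⊕ χ ⊗ M_χ` over the irreducible characters of `G`;
`M_χ` is constant if `χ(c) = χ(1)`, otherwise it is a middle convolution of an irreducible local system on the line minus
three points, so it is irreducible (Katz), and either unitary or a part of the moving part `L ⊗ U`, `U` unitary. Let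
`M_χ` be in the moving part, of rank `R`. In the filled point `a = c t_j` the Kodaira Spencer map exchanges the centre of
the star, where `T_a` is `1`, and the tails, where it is `a`; so `T_a` on `M_χ` has the eigenvalue `1` with multiplicity
`R / 2` and the two eigenvalues `η`, `η⁻¹` of `T_a` on the differentials of `Z`, which do not depend on `χ`. The rank of the
part of the tails is `χ(1) - f_j`, `f_j` the dimension of the vectors fixed by `t_j` (no vector is fixed by `a`, as `c` is a
power of `a`), and `R = 2 χ(1) - f_1 - f_2 - f_3`; so all `f_j` are equal to half of their sum, that is `0`, `R = 2 χ(1)`, and
`a` has only the eigenvalues `η`, `η⁻¹` in `χ`. So `a + a⁻¹` is a scalar on the sum `M` of the matrix coefficients of all these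
`χ`, and `r = dim U = Σ χ(1) R / 2 = dim M`. This is `ShimC`. Proof: `x = c t_1` and `y = c t_2` generate `G`, `x + x⁻¹`, `y + y⁻¹`
are scalars and `x y` is a product of `c²` and the inverse of `c t_3` (up to conjugation); so `1, x, y, x y` span the algebra
of the operators on `M`, `dim M ≤ 4` and `|G| ≤ 172`.

(8) (B). Pinch the loop `x`: the lifts are labelled by `G/⟨x⟩`, the components of the rest by `G/⟨x, y x y⁻¹⟩`, and the dual
of the span of the lifts is `HE x y`. It contains the constants, so there are no trees. The part `H^1(E)` of `H^1(C)` is not
constant, so it is `L`, and the full twists act on `L` by `(1 1; 0 1)` and `(1 0; -1 1)`. The lifts of `x` and `y` meet with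
equal signs, so `M Mᵗ` is `wallE`, and it is `|x| |y|` on `HE x y`; the same holds for the generators `y`, `x⁻¹`. The
inequality of Noether over `M_{1,1}` is `n (1 - 1 / m²) < 12 dim HE`, `m = |[x, y]|`. Proof: `HE x y` and `HE y x⁻¹` consist of
constants, so `⟨x⟩` and `⟨y⟩` are normal, `m²` divides `|x|` and `|y|`, `n ≥ m³`, `n < 16`, so `m = 2`, `n = 8`. (`Q_8` does occur.)
-/

namespace Pool.Agent.Results.MP_bf82d2_ag.Walls

open Pool.Agent.H78.UN
open Pool.Agent.H52.WP (ShimE)

/-- Let `G` be a finite group which is not commutative. Let `s` be a generating system of four elements different from
`1` with product `1`, not all of order two. If some braid translate of `s` is not a tree and `Shim` holds then `|G| ≤ 86`; if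
all are trees and `ShimC` holds then `|G| ≤ 172`. If `x`, `y` satisfy `ShimE` then `G` is the quaternion group of order 8. -/
theorem result (G : Type) [Group G] [Fintype G] (hnc : ∃ x y : G, x * y ≠ y * x) :
    (∀ s : Fin 4 → G, s 0 * s 1 * s 2 * s 3 = 1 → Subgroup.closure (Set.range s) = ⊤ → (∀ i, s i ≠ 1) →
      (∃ i, orderOf (s i) ≠ 2) →
      ((∃ t, Tr s t ∧ ¬ Tree t) → ∀ lam z : (Fin 4 → G) → ℝ, Shim s lam z → Nat.card G ≤ 86) ∧
      ((∀ t, Tr s t → Tree t) → ∀ M : Submodule ℂ (G → ℂ), ShimC s M → Nat.card G ≤ 172)) ∧
  (∀ x y : G, ShimE x y → Nonempty (G ≃* QuaternionGroup 2)) :=
  ⟨fun _ hprod hgen hne hord => ⟨fun hnt _ _ hS => un_all hprod hgen hnc hnt hne hord hS,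
    fun hall M hS => un_compact hprod hgen hnc hall hne hord M hS⟩, fun _ _ h => Pool.Agent.H83.UNE.shimE_iso h⟩

end Pool.Agent.Results.MP_bf82d2_ag.Walls
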